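import Pool.Agent.Run7.h335.UM.High

set_option autoImplicit false

/-!
# A universal multiplier for weights that are near-constant on a spanning subgraph

Let `H` be a spanning 2-edge-connected subgraph of a finite graph and let `w` be an admissible
weighting with `l ≤ w ≤ h` on `H`.

* Multiplier four: if all weights are divisible by four, `7 h ≤ 8 l`, and the weights outside `H` are
  between `7 (h - l)` and `8 l - 6 h`, then there is a faithful circuit cover.  For `h = l` (constant
  weight on `H`) the weights outside may be anything up to twice the weight on `H`; for larger weights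
  the pair need not be admissible.
* Multiplier 88: if all weights are divisible by 88, `7 h < 9 l`, and the weights outside `H` are
  strictly between `7 (h - l) / 2` and `(9 l - 5 h) / 2`, then there is a faithful circuit cover.
* Multiplier `N = 8 (K - 2) (2 K + 3)` for graphs all of whose nonempty cuts have at least `K ≥ 4`
  edges: if `l`, `h` and all weights are divisible by `N`, `(K + 2) h < (3 K - 2) l`, and
  `(K + 2) (h - l) < 2 (K - 2) w < (3 K - 2) l + (K - 6) h` outside `H`, then there is a faithful
  circuit cover.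

Proof: `w` is the sum of a weighting that is constant on `H` and at most twice as large outside
(covered with the help of 8-flows of `H`, file `Run7/h335/EC8`), and of a positive near-constant
weighting of the whole graph (starting library `N411/CV`, `TH399/CC`).
-/

namespace Pool.Agent.Results.MP_48d738_co.NearConstantOnSpanningSubgraph

open Finset
open Pool.Agent.H126R2.CDC (MGraph)

variable {V E : Type} [Fintype V] [DecidableEq V] [Fintype E] [DecidableEq E]

/-- The edges with exactly one end in `X`. -/
def cut (G : MGraph V E) (X : Finset V) : Finset E :=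
  univ.filter (fun e => (∃ x ∈ G.ends e, x ∈ X) ∧ ∃ x ∈ G.ends e, x ∉ X)

/-- `w(e) ≤ w(T - e)` for every edge cut `T` and every edge `e` of `T`. -/
def Admissible (G : MGraph V E) (w : E → ℕ) : Prop :=
  ∀ X : Finset V, ∀ e ∈ cut G X, w e ≤ ∑ f ∈ (cut G X).erase e, w f

/-- Every nonempty proper vertex set is left by at least two edges of `H`. -/
def TwoEdgeConnects (G : MGraph V E) (H : Finset E) : Prop :=
  ∀ X : Finset V, X.Nonempty → X ≠ univ → 2 ≤ (cut G X ∩ H).card

/-- `(G, w)` has a faithful circuit cover. -/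
def HasFaithfulCover (G : MGraph V E) (w : E → ℕ) : Prop :=
  ∃ F : Multiset (Finset E), (∀ C ∈ F, G.IsCircuit C) ∧ ∀ e, F.countP (fun C => e ∈ C) = w e

open Pool.Agent.Run7.h335.EC8 (Two)
open Pool.Agent.Helper879.ECD (cn)
open Pool.Agent.H126R2.NC (TC f2_ne)

theorem mem_cut (G : MGraph V E) (v : E × Bool → V)
    (hv : ∀ e, G.ends e = s(v (e, false), v (e, true))) (X : Finset V) (e : E) :
    e ∈ cut G X ↔ ¬ (v (e, false) ∈ X ↔ v (e, true) ∈ X) := by
  unfold cut
  rw [Finset.mem_filter, hv e]
  simp only [Finset.mem_univ, true_and, Sym2.mem_iff, exists_eq_or_imp, exists_eq_left]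
  tauto

theorem two (G : MGraph V E) (v : E × Bool → V)
    (hv : ∀ e, G.ends e = s(v (e, false), v (e, true))) {H : Finset E}
    (h : TwoEdgeConnects G H) : Two (fun e => v (e, false)) (fun e => v (e, true)) H := by
  intro B h1 h2
  have h3 := h B h1 h2
  have h4 : cut G B ∩ H = H.filter (fun e => ¬ (v (e, false) ∈ B ↔ v (e, true) ∈ B)) := by
    ext e
    rw [Finset.mem_inter, Finset.mem_filter, mem_cut G v hv]
    tauto
  rw [h4] at h3
  exact h3

theorem eq_of_tc (G : MGraph V E) (v : E × Bool → V)
    (hv : ∀ e, G.ends e = s(v (e, false), v (e, true))) (w : E → ℕ) (ha : Admissible G w)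
    (e f : E) (hef : TC (fun e => v (e, false)) (fun e => v (e, true)) e f) : w e = w f := by
  classical
  obtain ⟨z, hz⟩ := hef
  by_cases h3 : e = f
  · rw [h3]
  · let X : Finset V := univ.filter (fun u => z u = 1)
    have h4 : cut G X = {e, f} := by
      ext g
      rw [mem_cut G v hv]
      simp only [X, Finset.mem_filter, Finset.mem_univ, true_and, Finset.mem_insert,
        Finset.mem_singleton]
      rw [f2_ne, hz g]
      by_cases h5 : g = e
      · subst h5
        simp [h3]
      · by_cases h6 : g = f
        · simp [h6, Ne.symm h3]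
        · simp [h5, h6]
    have h5 := ha X e (by rw [h4]; simp)
    have h6 := ha X f (by rw [h4]; simp)
    have h7 : ({e, f} : Finset E).erase e = {f} := by
      rw [Finset.erase_insert]
      simpa using h3
    have h8 : ({e, f} : Finset E).erase f = {e} := by
      rw [Finset.pair_comm, Finset.erase_insert]
      simpa using Ne.symm h3
    rw [h4, h7, Finset.sum_singleton] at h5
    rw [h4, h8, Finset.sum_singleton] at h6
    omega

/-- Let `w` be an admissible weighting of the edges of a finite graph `G` by natural numbers, `H` a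
set of edges such that `(V, H)` is 2-edge-connected, and `l ≤ w ≤ h` on `H`, where `l ≤ h`.
(1) If all weights are divisible by `4`, `7 h ≤ 8 l` and `7 (h - l) ≤ w(e) ≤ 8 l - 6 h` for all edges
`e` outside `H`, then `(G, w)` has a faithful circuit cover.
(2) If all weights are divisible by `88`, `7 h < 9 l` and `7 (h - l) < 2 w(e) < 9 l - 5 h` for all
edges `e` outside `H`, then `(G, w)` has a faithful circuit cover.
(3) Let `K ≥ 4` and suppose that all nonempty edge cuts of `G` have at least `K` edges. If `l`, `h`
and all weights are divisible by `8 (K - 2) (2 K + 3)`, `(K + 2) h < (3 K - 2) l` and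
`(K + 2) (h - l) < 2 (K - 2) w(e) < (3 K - 2) l + (K - 6) h` for all edges `e` outside `H`, then
`(G, w)` has a faithful circuit cover. -/
theorem result (V E : Type) [Fintype V] [DecidableEq V] [Fintype E] [DecidableEq E]
    (G : MGraph V E) (w : E → ℕ) (hw : Admissible G w) (H : Finset E)
    (hH : TwoEdgeConnects G H) (l h : ℕ) (hlh : l ≤ h) (hl : ∀ e ∈ H, l ≤ w e ∧ w e ≤ h) :
    ((∀ e, 4 ∣ w e) → 7 * h ≤ 8 * l →
      (∀ e, e ∉ H → 7 * h ≤ w e + 7 * l ∧ w e + 6 * h ≤ 8 * l) → HasFaithfulCover G w) ∧
    ((∀ e, 88 ∣ w e) → 7 * h < 9 * l →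
      (∀ e, e ∉ H → 7 * h < 2 * w e + 7 * l ∧ 2 * w e + 5 * h < 9 * l) →
      HasFaithfulCover G w) ∧
    (∀ K : ℕ, 4 ≤ K → (∀ X : Finset V, (cut G X).Nonempty → K ≤ (cut G X).card) →
      (∀ e, 8 * (K - 2) * (2 * K + 3) ∣ w e) →
      8 * (K - 2) * (2 * K + 3) ∣ l → 8 * (K - 2) * (2 * K + 3) ∣ h →
      (K + 2) * h < (3 * K - 2) * l →
      (∀ e, e ∉ H → (K + 2) * h < 2 * (K - 2) * w e + (K + 2) * l ∧
        2 * (K - 2) * w e + 6 * h < (3 * K - 2) * l + K * h) → HasFaithfulCover G w) := by
  obtain ⟨v, hv⟩ := G.exists_halves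
  have h2 := two G v hv hH
  have htc := eq_of_tc G v hv w hw
  refine ⟨fun h4 hlh hout => Pool.Agent.Run7.h335.UM.main4 G v hv H h2 w htc l h h4 hlh hl hout,
    fun h88 hlh hout => Pool.Agent.Run7.h335.UM.main88 G v hv H h2 w htc l h h88 hlh hl hout, ?_⟩
  intro K hK hcut hwK hlK hhK hrat hout
  obtain ⟨m, rfl⟩ : ∃ m, K = m + 2 := ⟨K - 2, by omega⟩
  have e1 : m + 2 - 2 = m := by omega
  have e2 : 3 * (m + 2) - 2 = 3 * m + 4 := by omega
  have e3 : 2 * (m + 2) + 3 = 2 * m + 7 := by ring
  rw [e1, e3] at hlK hhK
  simp only [e1, e3] at hwK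
  simp only [e1, e2] at hout
  rw [e2] at hrat
  have hN : 0 < 8 * m * (2 * m + 7) := by
    have : 0 < m := by omega
    positivity
  obtain ⟨a, rfl⟩ := hlK
  obtain ⟨b, rfl⟩ := hhK
  choose x hx using hwK
  have hab : a ≤ b := Nat.le_of_mul_le_mul_left hlh hN
  obtain ⟨D, rfl⟩ : ∃ D, b = a + D := ⟨b - a, by omega⟩
  generalize hNN : 8 * m * (2 * m + 7) = N at *
  refine Pool.Agent.Run7.h335.UM.mainK m (by omega) G v hv H h2 ?_ w x
    (fun e => by rw [hx e, hNN]) a D ?_ ?_ ?_
  · intro X
    have h3 : cn (fun e => v (e, false)) (fun e => v (e, true)) univ X = (cut G X).card := by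
      unfold cn
      congr 1
      ext e
      rw [mem_cut G v hv, Finset.mem_filter]
      simp
    rw [h3]
    rcases Finset.eq_empty_or_nonempty (cut G X) with h4 | h4
    · left
      rw [h4, Finset.card_empty]
    · right
      exact hcut X h4
  · apply Nat.lt_of_mul_lt_mul_left (a := N)
    calc N * ((m + 4) * (a + D)) = (m + 2 + 2) * (N * (a + D)) := by ring
      _ < (3 * m + 4) * (N * a) := hrat
      _ = N * ((3 * m + 4) * a) := by ring
  · intro e he
    have h3 := hl e he
    rw [hx e] at h3
    exact ⟨Nat.le_of_mul_le_mul_left h3.1 hN, Nat.le_of_mul_le_mul_left h3.2 hN⟩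
  · intro e he
    have h3 := hout e he
    rw [hx e] at h3
    constructor
    · apply Nat.lt_of_mul_lt_mul_left (a := N)
      have h4 := h3.1
      nlinarith
    · apply Nat.lt_of_mul_lt_mul_left (a := N)
      have h4 := h3.2
      nlinarith

end Pool.Agent.Results.MP_48d738_co.NearConstantOnSpanningSubgraph
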